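import Pool.Agent.Lib.MP_f4a5b0_an.H51Up
import Pool.Agent.Lib.MP_f4a5b0_an.H51Low

namespace Pool.Agent.Results.MP_f4a5b0_an.CriticalExponent

open MeasureTheory Filter Topology
open Pool.Agent.Lib.MP_f4a5b0_an.H96

/-- Let `θ ≠ 1`. Every point of SL(3, ℝ) / SL(3, ℤ) without divergent one-parameter diagonal
orbit spends time at least of order `T ^ θ` in some compact set, for arbitrarily large `T`,
if and only if `θ < 1`. -/
theorem result (θ : ℝ) (hθ : θ ≠ 1) :
    (∀ x : G ⧸ Gamma,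
      (∀ Y : ℝ × ℝ, Y ≠ 0 → ¬IsDivergent (Set.range fun t : ℝ => expA (t • Y)) x) →
      ∃ K : Set (G ⧸ Gamma), IsCompact K ∧
        0 < limsup (fun T : ℝ => volume {Y : ℝ × ℝ | Y ∈ Metric.ball 0 T ∧ expA Y • x ∈ K} /
          ENNReal.ofReal (T ^ θ)) atTop) ↔ θ < 1 := by
  constructor
  · intro h
    by_contra hlt
    have h1 : 0 < θ - 1 := sub_pos.mpr (lt_of_le_of_ne (not_lt.mp hlt) hθ.symm)
    obtain ⟨x, R, hray, hbad⟩ := exists_point2 (fun T => T ^ (θ - 1)) (tendsto_rpow_atTop h1)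
      fun T hT => Real.rpow_nonneg hT _
    have hK0 := (isCompact_ent R).image (QuotientGroup.continuous_mk (N := Gamma))
    obtain ⟨K, hK, hpos⟩ := h (x : G ⧸ Gamma) fun Y hY hdiv => by
      have hc := hdiv _ hK0
      have hcont : Continuous fun g : G => g.1 0 0 + g.1 1 1 + g.1 2 2 := by fun_prop
      obtain ⟨M, hM⟩ := hc.bddAbove_image hcont.continuousOn
      have hpos : 0 < |Y.1| + |Y.2| := by
        by_contra hcon
        apply hY
        have h1 := abs_nonneg Y.1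
        have h2 := abs_nonneg Y.2
        exact Prod.ext (abs_eq_zero.mp (by linarith)) (abs_eq_zero.mp (by linarith))
      obtain ⟨τ, hτ, hmem⟩ := hray Y hY (2 * M / (|Y.1| + |Y.2|))
      have := hM ⟨expA (τ • Y), ⟨⟨τ, rfl⟩, hmem.mem⟩, rfl⟩
      have e : (expA (τ • Y)).1 0 0 + (expA (τ • Y)).1 1 1 + (expA (τ • Y)).1 2 2 =
          Real.exp (τ * Y.1) + Real.exp (τ * Y.2) + Real.exp (-(τ * Y.1 + τ * Y.2)) := by
        simp [expA]
      simp only at this
      rw [e] at this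
      have a1 := Real.add_one_le_exp (τ * Y.1)
      have a2 := Real.add_one_le_exp (τ * Y.2)
      have a3 := Real.add_one_le_exp (-(τ * Y.1 + τ * Y.2))
      have a4 := Real.exp_pos (τ * Y.1)
      have a5 := Real.exp_pos (τ * Y.2)
      have a6 := Real.exp_pos (-(τ * Y.1 + τ * Y.2))
      have a7 : |τ * Y.1| ≤ M := abs_le.mpr ⟨by linarith, by linarith⟩
      have a8 : |τ * Y.2| ≤ M := abs_le.mpr ⟨by linarith, by linarith⟩
      rw [abs_mul] at a7 a8
      rw [div_lt_iff₀ hpos] at hτ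
      nlinarith [le_abs_self τ]
    refine hpos.ne' (Tendsto.limsup_eq ?_)
    obtain ⟨δ, hδ, hns⟩ := not_cusp K hK
    rw [ENNReal.tendsto_nhds_zero]
    intro ε hε
    obtain ⟨r, hr0, hr1, hr2⟩ := ENNReal.lt_iff_exists_real_btwn.mp hε
    obtain ⟨T0, hT0⟩ := hbad δ r hδ (ENNReal.ofReal_pos.mp hr1)
    filter_upwards [eventually_ge_atTop T0, eventually_gt_atTop 0] with T hT hT'
    apply ENNReal.div_le_of_le_mul
    refine le_trans (measure_mono ?_) ((hT0 T hT).trans ?_)
    · rintro Y ⟨hb, hY⟩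
      rw [mem_ball_zero_iff] at hb
      exact ⟨(norm_fst_le Y).trans hb.le, (norm_snd_le Y).trans hb.le, hns _ hY⟩
    · rw [← Real.rpow_add_one hT'.ne', sub_add_cancel, ENNReal.ofReal_mul hr0]
      gcongr
  · intro h x hx
    obtain ⟨K, hK, hf⟩ := lower_bound h x hx
    refine ⟨K, hK, zero_lt_one.trans_le (le_limsup_of_frequently_le ?_)⟩
    refine (hf.and_eventually (eventually_gt_atTop 0)).mono fun T hT => ?_
    rw [ENNReal.le_div_iff_mul_le (Or.inl (ENNReal.ofReal_pos.mpr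
      (Real.rpow_pos_of_pos hT.2 θ)).ne') (Or.inl ENNReal.ofReal_ne_top), one_mul]
    exact hT.1.le

end Pool.Agent.Results.MP_f4a5b0_an.CriticalExponent
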