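import Pool.Agent.Lib.MP_f4a5b0_an.H96Limit

set_option autoImplicit false

namespace Pool.Agent.Results.MP_f4a5b0_an.SL3Rays

open MeasureTheory Filter Topology
open scoped Pointwise
open Pool.Agent.Lib.MP_f4a5b0_an.H96

lemma abs_le_trace (a b : ℝ) : |a| + |b| ≤ 2 * (Real.exp a + Real.exp b + Real.exp (-(a + b))) := by
  have h1 := Real.add_one_le_exp a
  have h2 := Real.add_one_le_exp b
  have h3 := Real.add_one_le_exp (-(a + b))
  have h4 := Real.exp_pos a
  have h5 := Real.exp_pos b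
  have h6 := Real.exp_pos (-(a + b))
  have h7 : |a| ≤ Real.exp a + Real.exp b + Real.exp (-(a + b)) := by
    rw [abs_le]; constructor <;> linarith
  have h8 : |b| ≤ Real.exp a + Real.exp b + Real.exp (-(a + b)) := by
    rw [abs_le]; constructor <;> linarith
  linarith

/-- A point of SL(3, ℝ) / SL(3, ℤ) none of whose one-parameter diagonal orbits is divergent, all
of whose diagonal rays even return to one compact set at arbitrarily large times, but whose orbit
under the full diagonal group spends a zero proportion of time in every compact set. -/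
theorem result : ∃ x : G ⧸ Gamma,
    (∀ Y : ℝ × ℝ, Y ≠ 0 → ¬IsDivergent (Set.range fun t : ℝ => expA (t • Y)) x) ∧
    (∃ K₀ : Set (G ⧸ Gamma), IsCompact K₀ ∧
      ∀ Y : ℝ × ℝ, Y ≠ 0 → ∀ S : ℝ, ∃ t : ℝ, S < t ∧ expA (t • Y) • x ∈ K₀) ∧
    ∀ K : Set (G ⧸ Gamma), IsCompact K →
      ∀ B : Set (ℝ × ℝ), Bornology.IsBounded B → 0 < volume B →
        Tendsto (fun T : ℝ => volume {Y : ℝ × ℝ | Y ∈ T • B ∧ expA Y • x ∈ K} / volume (T • B))
          atTop (𝓝 0) := by
  obtain ⟨x, R, hray, hbad⟩ := exists_point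
  have hK0 := (isCompact_ent R).image (QuotientGroup.continuous_mk (N := Gamma))
  have hret : ∀ Y : ℝ × ℝ, Y ≠ 0 → ∀ S : ℝ, ∃ t : ℝ, S < t ∧
      expA (t • Y) • (x : G ⧸ Gamma) ∈ ((↑) : G → G ⧸ Gamma) '' {g : G | Ent R g} := by
    intro Y hY S
    obtain ⟨t, ht, hb⟩ := hray Y hY S
    exact ⟨t, ht, hb.mem⟩
  refine ⟨(x : G ⧸ Gamma), ?_, ⟨_, hK0, hret⟩, ?_⟩
  · intro Y hY hdiv
    have hc := hdiv _ hK0
    have hcont : Continuous fun g : G => g.1 0 0 + g.1 1 1 + g.1 2 2 := by fun_prop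
    obtain ⟨M, hM⟩ := hc.bddAbove_image hcont.continuousOn
    have hpos : 0 < |Y.1| + |Y.2| := by
      by_contra hcon
      apply hY
      have h1 := abs_nonneg Y.1
      have h2 := abs_nonneg Y.2
      exact Prod.ext (abs_eq_zero.mp (by linarith)) (abs_eq_zero.mp (by linarith))
    obtain ⟨τ, hτ, hmem⟩ := hret Y hY (2 * M / (|Y.1| + |Y.2|))
    have := hM ⟨expA (τ • Y), ⟨⟨τ, rfl⟩, hmem⟩, rfl⟩
    have e : (expA (τ • Y)).1 0 0 + (expA (τ • Y)).1 1 1 + (expA (τ • Y)).1 2 2 =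
        Real.exp (τ * Y.1) + Real.exp (τ * Y.2) + Real.exp (-(τ * Y.1 + τ * Y.2)) := by
      simp [expA]
    simp only at this
    rw [e] at this
    have h2 := abs_le_trace (τ * Y.1) (τ * Y.2)
    rw [abs_mul, abs_mul] at h2
    rw [div_lt_iff₀ hpos] at hτ
    nlinarith [le_abs_self τ]
  · intro K hK B hB hv
    obtain ⟨δ, hδ, hns⟩ := not_cusp K hK
    obtain ⟨ρ, hρ0, hρ⟩ := hB.subset_closedBall_lt 0 0
    rw [ENNReal.tendsto_nhds_zero]
    intro ε hε
    obtain ⟨r, hr0, hr1, hr2⟩ := ENNReal.lt_iff_exists_real_btwn.mp (ENNReal.mul_pos hε.ne' hv.ne')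
    have hr : 0 < r := ENNReal.ofReal_pos.mp hr1
    obtain ⟨T0, hT0⟩ := hbad δ (r / ρ ^ 2) hδ (by positivity)
    filter_upwards [eventually_ge_atTop (T0 / ρ), eventually_gt_atTop 0] with T hT hT'
    rw [div_le_iff₀ hρ0] at hT
    apply ENNReal.div_le_of_le_mul
    refine le_trans (measure_mono ?_) ((hT0 (T * ρ) hT).trans ?_)
    · rintro Y ⟨⟨b, hb, rfl⟩, hY⟩
      have hb' := hρ hb
      rw [mem_closedBall_zero_iff] at hb'
      have hb1 : |b.1| ≤ ρ := (norm_fst_le b).trans hb'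
      have hb2 : |b.2| ≤ ρ := (norm_snd_le b).trans hb'
      refine ⟨?_, ?_, hns _ hY⟩
      · show |T * b.1| ≤ _
        rw [abs_mul, abs_of_pos hT']; gcongr
      · show |T * b.2| ≤ _
        rw [abs_mul, abs_of_pos hT']; gcongr
    · rw [Measure.addHaar_smul]
      have e1 : r / ρ ^ 2 * (T * ρ) ^ 2 = r * T ^ 2 := by field_simp
      have e2 : Module.finrank ℝ (ℝ × ℝ) = 2 := by simp
      rw [e1, e2, abs_of_pos (by positivity), ENNReal.ofReal_mul hr0, mul_comm _ (volume B),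
        ← mul_assoc]
      gcongr

end Pool.Agent.Results.MP_f4a5b0_an.SL3Rays
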